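import Mathlib

set_option autoImplicit false
set_option linter.unusedSectionVars false

open Finset

namespace Pool.Agent.V11233.LpR

variable {V : Type} [Fintype V] [DecidableEq V]

/-- The `ℓ^p` cost `∑_{w ∼ v} |f w - y|^p` of giving the value `y` to the vertex `v`. -/
noncomputable def cost (p : ℝ) (G : SimpleGraph V) [DecidableRel G.Adj] (f : V → ℝ) (v : V)
    (y : ℝ) : ℝ :=
  ∑ w ∈ G.neighborFinset v, |f w - y| ^ p

/-- Relaxation of `f` at the vertex `v`: the value at `v` is replaced by the minimiser of the
cost, the other values are kept. -/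
noncomputable def relax (p : ℝ) (G : SimpleGraph V) [DecidableRel G.Adj] (f : V → ℝ) (v : V) :
    V → ℝ :=
  Function.update f v (Classical.epsilon fun y => ∀ z, cost p G f v y ≤ cost p G f v z)

/-- The profile after `t` steps, if the vertices `ω 0, ω 1, …` are relaxed one after another. -/
noncomputable def run (p : ℝ) (G : SimpleGraph V) [DecidableRel G.Adj] (f₀ : V → ℝ)
    (ω : ℕ → V) : ℕ → V → ℝ
  | 0 => f₀
  | t + 1 => relax p G (run p G f₀ ω t) (ω t)

/-- The `p`-energy; every edge is counted twice (once for each orientation). -/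
noncomputable def energy (p : ℝ) (G : SimpleGraph V) [DecidableRel G.Adj] (f : V → ℝ) : ℝ :=
  ∑ v, ∑ w ∈ G.neighborFinset v, |f v - f w| ^ p

/-- `h` is a `p`-harmonic extension of the values of `f₀` outside `I`: it has these values
outside `I` and minimises the `p`-energy among all functions with these values. -/
def IsHarmExt (p : ℝ) (G : SimpleGraph V) [DecidableRel G.Adj] (I : Finset V)
    (f₀ h : V → ℝ) : Prop :=
  (∀ v, v ∉ I → h v = f₀ v) ∧
    ∀ g : V → ℝ, (∀ v, v ∉ I → g v = f₀ v) → energy p G h ≤ energy p G g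

/-! ### The function `ψ x = |x|^{p-2} x` -/

/-- derivative of `|x|^p / p` -/
noncomputable def psi (p x : ℝ) : ℝ := |x| ^ (p - 2) * x

theorem psi_neg (p x : ℝ) : psi p (-x) = -psi p x := by
  simp [psi, abs_neg]

theorem psi_of_nonneg {p x : ℝ} (hp : 2 < p) (hx : 0 ≤ x) : psi p x = x ^ (p - 1) := by
  unfold psi
  rw [abs_of_nonneg hx]
  rcases hx.eq_or_lt with h | h
  · subst h
    rw [mul_zero, Real.zero_rpow (by linarith)]
  · have := Real.rpow_add_one h.ne' (p - 2)
    rw [← this]
    congr 1
    ring

theorem psi_pos {p x : ℝ} (hp : 2 < p) (hx : 0 < x) : 0 < psi p x := by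
  rw [psi_of_nonneg hp hx.le]
  exact Real.rpow_pos_of_pos hx _

theorem psi_lt {p a b : ℝ} (hp : 2 < p) (hab : a < b) : psi p a < psi p b := by
  by_cases ha : 0 ≤ a
  · rw [psi_of_nonneg hp ha, psi_of_nonneg hp (ha.trans hab.le)]
    exact Real.rpow_lt_rpow ha hab (by linarith)
  · push Not at ha
    have e1 : psi p a = -psi p (-a) := by rw [psi_neg]; ring
    by_cases hb : 0 ≤ b
    · have h1 : 0 < psi p (-a) := psi_pos hp (by linarith)
      have h2 : 0 ≤ psi p b := by
        rw [psi_of_nonneg hp hb]
        exact Real.rpow_nonneg hb _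
      linarith
    · push Not at hb
      have e2 : psi p b = -psi p (-b) := by rw [psi_neg]; ring
      have h3 : psi p (-b) < psi p (-a) := by
        rw [psi_of_nonneg hp (by linarith), psi_of_nonneg hp (by linarith)]
        exact Real.rpow_lt_rpow (by linarith) (by linarith) (by linarith)
      linarith

theorem psi_le {p a b : ℝ} (hp : 2 < p) (hab : a ≤ b) : psi p a ≤ psi p b := by
  rcases hab.eq_or_lt with h | h
  · rw [h]
  · exact (psi_lt hp h).le

theorem abs_rpow_tangent_pos {p : ℝ} (hp : 2 < p) {X : ℝ} (hX : 0 < X) (Y : ℝ) :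
    |X| ^ p + p * psi p X * (Y - X) ≤ |Y| ^ p ∧
      (|X| ^ p + p * psi p X * (Y - X) = |Y| ^ p → Y = X) := by
  have hXp : 0 < X ^ p := Real.rpow_pos_of_pos hX p
  have e : psi p X * X = X ^ p := by
    rw [psi_of_nonneg hp hX.le, ← Real.rpow_add_one hX.ne']
    congr 1
    ring
  obtain ⟨s, hs⟩ : ∃ s, Y = X * (1 + s) := ⟨Y / X - 1, by field_simp; ring⟩
  have e2 : |X| ^ p + p * psi p X * (Y - X) = X ^ p * (1 + p * s) := by
    rw [abs_of_pos hX, hs]
    linear_combination p * s * e
  rw [e2]
  by_cases h1 : -1 ≤ s
  · have e3 : |Y| ^ p = X ^ p * (1 + s) ^ p := by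
      rw [hs, abs_of_nonneg (mul_nonneg hX.le (by linarith)),
        Real.mul_rpow hX.le (by linarith)]
    rw [e3]
    refine ⟨mul_le_mul_of_nonneg_left
      (one_add_mul_self_le_rpow_one_add h1 (by linarith)) hXp.le, fun h => ?_⟩
    by_contra hne
    have hs0 : s ≠ 0 := by
      rintro rfl
      exact hne (by rw [hs]; ring)
    have := one_add_mul_self_lt_rpow_one_add h1 hs0 (by linarith : 1 < p)
    have := mul_lt_mul_of_pos_left this hXp
    linarith
  · push Not at h1
    have h2 : 1 + p * s < 0 := by nlinarith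
    have h3 : X ^ p * (1 + p * s) < 0 := mul_neg_of_pos_of_neg hXp h2
    have h4 : 0 ≤ |Y| ^ p := Real.rpow_nonneg (abs_nonneg Y) p
    exact ⟨by linarith, fun h => by linarith⟩

/-- tangent inequality for `|x|^p`, with the equality case -/
theorem abs_rpow_tangent {p : ℝ} (hp : 2 < p) (x y : ℝ) :
    |x| ^ p + p * psi p x * (y - x) ≤ |y| ^ p ∧
      (|x| ^ p + p * psi p x * (y - x) = |y| ^ p → y = x) := by
  rcases lt_trichotomy x 0 with hx | hx | hx
  · -- reduce to the positive case
    have hx' : 0 < -x := by linarith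
    have := abs_rpow_tangent_pos hp hx' (-y)
    rw [abs_neg, abs_neg, psi_neg] at this
    have e : |x| ^ p + p * -psi p x * (-y - -x) = |x| ^ p + p * psi p x * (y - x) := by ring
    rw [e] at this
    refine ⟨this.1, fun h => ?_⟩
    have := this.2 h
    linarith
  · subst hx
    have h0 : psi p 0 = 0 := by simp [psi]
    rw [h0, abs_zero, Real.zero_rpow (by linarith)]
    refine ⟨?_, fun h => ?_⟩
    · have := Real.rpow_nonneg (abs_nonneg y) p
      linarith
    · by_contra hy
      have : 0 < |y| ^ p := Real.rpow_pos_of_pos (abs_pos.2 hy) _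
      linarith
  · exact abs_rpow_tangent_pos hp hx y

/-! ### Minimisers of the cost -/

section Min

variable (p : ℝ) (G : SimpleGraph V) [DecidableRel G.Adj]

theorem exists_min (hp : 2 < p) (f : V → ℝ) (v : V) :
    ∃ y, ∀ z, cost p G f v y ≤ cost p G f v z := by
  have hp0 : 0 < p := by linarith
  obtain ⟨M, hM⟩ : ∃ M : ℝ, ∀ w, |f w| ≤ M := by
    obtain ⟨M, hM⟩ := (Set.finite_range fun w => |f w|).bddAbove
    exact ⟨M, fun w => hM ⟨w, rfl⟩⟩
  have hcont : Continuous (cost p G f v) := by
    unfold cost
    exact continuous_finsetSum _ fun w _ =>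
      (continuous_abs.comp (continuous_const.sub continuous_id)).rpow_const
        fun _ => Or.inr hp0.le
  have hM0 : 0 ≤ M := (abs_nonneg _).trans (hM v)
  obtain ⟨y, hy, hmin⟩ := (isCompact_Icc (a := -M) (b := M)).exists_isMinOn
    ⟨0, by constructor <;> linarith⟩ hcont.continuousOn
  refine ⟨y, fun z => ?_⟩
  have hmono : ∀ a b : ℝ, (∀ w, |f w - a| ≤ |f w - b|) → cost p G f v a ≤ cost p G f v b := by
    intro a b h
    unfold cost
    exact sum_le_sum fun w _ => Real.rpow_le_rpow (abs_nonneg _) (h w) hp0.le
  by_cases h1 : z < -M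
  · refine (hmin (show -M ∈ Set.Icc (-M) M from ⟨le_refl _, by linarith⟩)).trans
      (hmono _ _ fun w => ?_)
    have := abs_le.1 (hM w)
    rw [abs_of_nonneg (by linarith), abs_of_nonneg (by linarith)]
    linarith
  · by_cases h2 : M < z
    · refine (hmin (show M ∈ Set.Icc (-M) M from ⟨by linarith, le_refl _⟩)).trans
        (hmono _ _ fun w => ?_)
      have := abs_le.1 (hM w)
      rw [abs_of_nonpos (by linarith), abs_of_nonpos (by linarith)]
      linarith
    · push Not at h1 h2
      exact hmin ⟨h1, h2⟩

theorem stationary (hp : 2 < p) (f : V → ℝ) (v : V) (y : ℝ)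
    (hy : ∀ z, cost p G f v y ≤ cost p G f v z) :
    ∑ w ∈ G.neighborFinset v, psi p (y - f w) = 0 := by
  have hd : HasDerivAt (cost p G f v)
      (∑ w ∈ G.neighborFinset v, p * |y - f w| ^ (p - 2) * (y - f w)) y := by
    have : cost p G f v = fun y => ∑ w ∈ G.neighborFinset v, |y - f w| ^ p := by
      funext y
      unfold cost
      exact sum_congr rfl fun w _ => by rw [abs_sub_comm]
    rw [this]
    apply HasDerivAt.fun_sum
    intro w _
    have h1 := hasDerivAt_abs_rpow (y - f w) (by linarith : 1 < p)
    have h2 : HasDerivAt (fun z : ℝ => z - f w) 1 y := (hasDerivAt_id y).sub_const _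
    have h3 := h1.comp y h2
    simpa [Function.comp_def] using h3
  have h0 := (IsLocalMin.hasDerivAt_eq_zero (Filter.Eventually.of_forall hy) hd)
  have e : ∑ w ∈ G.neighborFinset v, p * |y - f w| ^ (p - 2) * (y - f w) =
      p * ∑ w ∈ G.neighborFinset v, psi p (y - f w) := by
    rw [mul_sum]
    exact sum_congr rfl fun w _ => by unfold psi; ring
  rw [e] at h0
  rcases mul_eq_zero.1 h0 with h | h
  · linarith
  · exact h

theorem relax_same (hp : 2 < p) (f : V → ℝ) (v : V) :
    ∑ w ∈ G.neighborFinset v, psi p (relax p G f v v - f w) = 0 := by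
  have h := Classical.epsilon_spec (exists_min p G hp f v)
  have := stationary p G hp f v _ h
  unfold relax
  rw [Function.update_self]
  exact this

theorem relax_ne (f : V → ℝ) (v : V) {w : V} (h : w ≠ v) : relax p G f v w = f w := by
  unfold relax
  rw [Function.update_of_ne h]

/-! ### Harmonic extensions -/

theorem energy_eq (f : V → ℝ) :
    energy p G f = ∑ v, ∑ w, if G.Adj v w then |f v - f w| ^ p else 0 := by
  unfold energy
  refine sum_congr rfl fun v _ => ?_
  rw [← sum_filter]
  refine sum_congr ?_ fun _ _ => rfl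
  ext w
  simp

/-- A function satisfying the Euler-Lagrange equations on `I` is the unique minimiser. -/
theorem harm_of_EL (hp : 2 < p) (hG : G.Connected) (I : Finset V) (hI : ∃ v, v ∉ I)
    (f₀ h : V → ℝ) (hb : ∀ v, v ∉ I → h v = f₀ v)
    (hEL : ∀ v ∈ I, ∑ w ∈ G.neighborFinset v, psi p (h v - h w) = 0) :
    IsHarmExt p G I f₀ h ∧ ∀ h', IsHarmExt p G I f₀ h' → h' = h := by
  have key : ∀ g : V → ℝ, (∀ v, v ∉ I → g v = f₀ v) →
      energy p G h ≤ energy p G g ∧ (energy p G h = energy p G g → g = h) := by
    intro g hg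
    have hzero : (∑ v, ∑ w, if G.Adj v w then
        p * psi p (h v - h w) * ((g v - g w) - (h v - h w)) else 0) = 0 := by
      have e1 : (∑ v, ∑ w, if G.Adj v w then
          p * psi p (h v - h w) * ((g v - g w) - (h v - h w)) else 0) =
          (∑ v, ∑ w, if G.Adj v w then p * psi p (h v - h w) * (g v - h v) else 0) +
          (∑ v, ∑ w, if G.Adj v w then p * psi p (h w - h v) * (g w - h w) else 0) := by
        rw [← sum_add_distrib]
        refine sum_congr rfl fun v _ => ?_
        rw [← sum_add_distrib]
        refine sum_congr rfl fun w _ => ?_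
        split_ifs
        · have : psi p (h w - h v) = - psi p (h v - h w) := by
            rw [← psi_neg]; congr 1; ring
          rw [this]; ring
        · simp
      have e2 : (∑ v, ∑ w, if G.Adj v w then p * psi p (h w - h v) * (g w - h w) else 0) =
          (∑ v, ∑ w, if G.Adj v w then p * psi p (h v - h w) * (g v - h v) else 0) := by
        rw [sum_comm]
        refine sum_congr rfl fun v _ => sum_congr rfl fun w _ => ?_
        simp only [G.adj_comm]
      have e3 : (∑ v, ∑ w, if G.Adj v w then p * psi p (h v - h w) * (g v - h v) else 0) = 0 := by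
        apply sum_eq_zero
        intro v _
        by_cases hv : v ∈ I
        · have : (∑ w, if G.Adj v w then p * psi p (h v - h w) * (g v - h v) else 0) =
              p * (g v - h v) * ∑ w ∈ G.neighborFinset v, psi p (h v - h w) := by
            rw [← sum_filter, mul_sum]
            refine sum_congr ?_ fun w _ => by ring
            ext w
            simp
          rw [this, hEL v hv, mul_zero]
        · rw [hg v hv, hb v hv]
          simp
      rw [e1, e2, e3]; simp
    have hle : ∀ v w, (if G.Adj v w then |h v - h w| ^ p else 0) +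
        (if G.Adj v w then p * psi p (h v - h w) * ((g v - g w) - (h v - h w)) else 0) ≤
        if G.Adj v w then |g v - g w| ^ p else 0 := by
      intro v w
      split_ifs
      · exact (abs_rpow_tangent hp _ _).1
      · simp
    have hE : energy p G h = ∑ v, ∑ w, ((if G.Adj v w then |h v - h w| ^ p else 0) +
        (if G.Adj v w then p * psi p (h v - h w) * ((g v - g w) - (h v - h w)) else 0)) := by
      simp only [sum_add_distrib]
      rw [hzero, energy_eq]
      simp
    refine ⟨?_, fun heq => ?_⟩
    · rw [hE, energy_eq p G g]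
      exact sum_le_sum fun v _ => sum_le_sum fun w _ => hle v w
    · rw [hE, energy_eq p G g] at heq
      have h1 := (sum_eq_sum_iff_of_le (fun v _ => sum_le_sum fun w _ => hle v w)).1 heq
      have h2 : ∀ v w, G.Adj v w → g v - g w = h v - h w := by
        intro v w hvw
        have := (sum_eq_sum_iff_of_le (fun w _ => hle v w)).1 (h1 v (mem_univ v)) w (mem_univ w)
        rw [if_pos hvw, if_pos hvw, if_pos hvw] at this
        exact (abs_rpow_tangent hp _ _).2 this
      obtain ⟨b, hbI⟩ := hI
      have h3 : ∀ v, g v - h v = g b - h b := by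
        intro v
        obtain ⟨wk⟩ := hG.preconnected v b
        induction wk with
        | nil => rfl
        | cons hadj _ ih =>
          rw [← ih hbI]
          have := h2 _ _ hadj
          linarith
      funext v
      have := h3 v
      rw [hg b hbI, hb b hbI] at this
      linarith
  refine ⟨⟨hb, fun g hg => (key g hg).1⟩, fun h' hh' => ?_⟩
  refine (key h' hh'.1).2 (le_antisymm (key h' hh'.1).1 (hh'.2 h hb))

end Min

end Pool.Agent.V11233.LpR
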