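import Pool.Agent.V11233.LpR.Gr

set_option autoImplicit false
set_option linter.unusedSectionVars false

open Finset

namespace Pool.Agent.V11233.LpR

theorem rpow_bernoulli {q x D : ℝ} (hq : 1 ≤ q) (hx : 0 < x) (hD : 0 ≤ D) :
    x ^ q + q * x ^ (q - 1) * D ≤ (x + D) ^ q := by
  have h1 := one_add_mul_self_le_rpow_one_add (s := D / x)
    (by have := div_nonneg hD hx.le; linarith) hq
  have e1 : x + D = x * (1 + D / x) := by field_simp
  have hxq : 0 < x ^ q := Real.rpow_pos_of_pos hx q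
  have e2 : x ^ (q - 1) = x ^ q / x := by
    rw [Real.rpow_sub_one hx.ne']
  rw [e1, Real.mul_rpow hx.le (by have := div_nonneg hD hx.le; linarith), e2]
  calc x ^ q + q * (x ^ q / x) * D = x ^ q * (1 + q * (D / x)) := by ring
    _ ≤ x ^ q * (1 + D / x) ^ q := by gcongr

theorem pmean_bounds {p τ η δ h y a c : ℝ} (hp : 2 < p) (hτ : 0 < τ) (hη : 2 * η ≤ τ)
    (ha0 : 0 ≤ a) (ha : a ≤ η) (hc0 : 0 ≤ c) (hc : c ≤ η) (hδ0 : 0 ≤ δ)
    (hδ : η ^ (p - 2) ≤ δ * (τ / 2) ^ (p - 2))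
    (E : psi p (y - (h - τ + a)) + psi p (y - (h + τ + c)) + psi p (y - h) = 0) :
    h ≤ y ∧ y ≤ h + η ∧ (1 - δ) * ((a + c) / 2) ≤ y - h := by
  have hz : psi p 0 = 0 := by simp [psi]
  have h1 : h ≤ y := by
    by_contra hy
    push Not at hy
    have e1 : psi p (y - (h - τ + a)) < psi p τ := psi_lt hp (by linarith)
    have e2 : psi p (y - (h + τ + c)) < psi p (-τ) := psi_lt hp (by linarith)
    have e3 : psi p (y - h) < psi p 0 := psi_lt hp (by linarith)
    rw [psi_neg] at e2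
    linarith
  have h2 : y ≤ h + η := by
    by_contra hy
    push Not at hy
    have e1 : psi p τ < psi p (y - (h - τ + a)) := psi_lt hp (by linarith)
    have e2 : psi p (-τ) < psi p (y - (h + τ + c)) := psi_lt hp (by linarith)
    have e3 : psi p 0 < psi p (y - h) := psi_lt hp (by linarith)
    rw [psi_neg] at e2
    linarith
  refine ⟨h1, h2, ?_⟩
  obtain ⟨u, hu⟩ : ∃ u, u = y - h := ⟨_, rfl⟩
  have hu0 : 0 ≤ u := by linarith
  have huη : u ≤ η := by linarith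
  rw [← hu]
  by_cases hcase : (a + c) / 2 ≤ u
  · nlinarith [mul_nonneg hδ0 (by linarith : 0 ≤ (a + c) / 2)]
  · push Not at hcase
    have e1 : psi p (y - (h - τ + a)) = (τ + u - a) ^ (p - 1) := by
      rw [← psi_of_nonneg hp (by linarith)]
      congr 1
      linarith
    have e2 : psi p (y - (h + τ + c)) = -(τ + c - u) ^ (p - 1) := by
      rw [← psi_of_nonneg hp (by linarith), ← psi_neg]
      congr 1
      linarith
    have e3 : psi p (y - h) = u ^ (p - 1) := by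
      rw [← hu, psi_of_nonneg hp hu0]
    rw [e1, e2, e3] at E
    have hb := rpow_bernoulli (q := p - 1) (x := τ + u - a) (D := a + c - 2 * u)
      (by linarith) (by linarith) (by linarith)
    have e4 : τ + u - a + (a + c - 2 * u) = τ + c - u := by ring
    rw [e4] at hb
    have e5 : p - 1 - 1 = p - 2 := by ring
    rw [e5] at hb
    have h3 : (τ / 2) ^ (p - 2) ≤ (τ + u - a) ^ (p - 2) :=
      Real.rpow_le_rpow (by linarith) (by linarith) (by linarith)
    have hT : 0 < (τ / 2) ^ (p - 2) := Real.rpow_pos_of_pos (by linarith) _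
    have h4 : (τ / 2) ^ (p - 2) * (a + c - 2 * u) ≤
        (p - 1) * (τ + u - a) ^ (p - 2) * (a + c - 2 * u) := by
      apply mul_le_mul_of_nonneg_right _ (by linarith)
      nlinarith
    have h5 : u ^ (p - 1) = u ^ (p - 2) * u := by
      rcases hu0.eq_or_lt with h0 | h0
      · rw [← h0, Real.zero_rpow (by linarith), mul_zero]
      · rw [← Real.rpow_add_one h0.ne']
        congr 1
        ring
    have h6 : u ^ (p - 2) ≤ δ * (τ / 2) ^ (p - 2) :=
      (Real.rpow_le_rpow hu0 huη (by linarith)).trans hδ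
    have h7 : u ^ (p - 1) ≤ δ * (τ / 2) ^ (p - 2) * u := by
      rw [h5]
      exact mul_le_mul_of_nonneg_right h6 hu0
    have h8 : (τ / 2) ^ (p - 2) * (a + c - 2 * u) ≤ (τ / 2) ^ (p - 2) * (δ * u) := by
      have : δ * (τ / 2) ^ (p - 2) * u = (τ / 2) ^ (p - 2) * (δ * u) := by ring
      linarith
    have h9 : a + c - 2 * u ≤ δ * u := le_of_mul_le_mul_left h8 hT
    nlinarith [mul_le_mul_of_nonneg_left hcase.le hδ0]

/-- the target `h (b, i) = i / (m+1)` -/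
noncomputable def hf (m : ℕ) (x : Bool × Fin (m + 2)) : ℝ := ((x.2 : ℕ) : ℝ) / ((m : ℝ) + 1)

/-- the conditions on the size of the perturbation -/
structure Par (p : ℝ) (m : ℕ) (η : ℝ) : Prop where
  hp : 2 < p
  pos : 0 < η
  small : 2 * η ≤ 1 / ((m : ℝ) + 1)
  tiny : η ^ (p - 2) ≤ 1 / ((m : ℝ) + 1) ^ 2 * (1 / ((m : ℝ) + 1) / 2) ^ (p - 2)

/-- the set of profiles that can occur -/
def Good (m : ℕ) (η : ℝ) (f : Bool × Fin (m + 2) → ℝ) : Prop :=
  (∀ x, x ∉ inn m → f x = hf m x) ∧ ∀ x, hf m x ≤ f x ∧ f x ≤ hf m x + η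

theorem step {p : ℝ} {m : ℕ} {η : ℝ} (P : Par p m η) {f : Bool × Fin (m + 2) → ℝ}
    (hf' : Good m η f) (i : Fin m) :
    Good m η (relax p (gr m) f (pv m i)) ∧
      (1 - 1 / ((m : ℝ) + 1) ^ 2) *
        (((f (false, ⟨i, by omega⟩) - hf m (false, ⟨i, by omega⟩)) +
          (f (false, ⟨i + 2, by omega⟩) - hf m (false, ⟨i + 2, by omega⟩))) / 2) ≤
        relax p (gr m) f (pv m i) (pv m i) - hf m (pv m i) := by
  have hL : (0 : ℝ) < (m : ℝ) + 1 := by positivity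
  have hs := relax_same p (gr m) P.hp f (pv m i)
  rw [sum_nbr] at hs
  obtain ⟨y, hy⟩ : ∃ y, y = relax p (gr m) f (pv m i) (pv m i) := ⟨_, rfl⟩
  rw [← hy] at hs ⊢
  have hb : f (true, ⟨i + 1, by omega⟩) = hf m (pv m i) := by
    rw [hf'.1 _ (by rw [mem_inn]; simp)]
    rfl
  have ha : hf m (false, ⟨i, by omega⟩) = hf m (pv m i) - 1 / ((m : ℝ) + 1) := by
    simp only [hf, pv]
    push_cast
    field_simp
    ring
  have hc : hf m (false, ⟨i + 2, by omega⟩) = hf m (pv m i) + 1 / ((m : ℝ) + 1) := by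
    simp only [hf, pv]
    push_cast
    field_simp
    ring
  obtain ⟨a, ha'⟩ : ∃ a, a = f (false, ⟨i, by omega⟩) - hf m (false, ⟨i, by omega⟩) := ⟨_, rfl⟩
  obtain ⟨c, hc'⟩ : ∃ c, c = f (false, ⟨i + 2, by omega⟩) - hf m (false, ⟨i + 2, by omega⟩) :=
    ⟨_, rfl⟩
  have h1 := hf'.2 (false, ⟨i, by omega⟩)
  have h2 := hf'.2 (false, ⟨i + 2, by omega⟩)
  have key := pmean_bounds (p := p) (τ := 1 / ((m : ℝ) + 1)) (η := η)
    (δ := 1 / ((m : ℝ) + 1) ^ 2) (h := hf m (pv m i)) (y := y) (a := a) (c := c) P.hp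
    (by positivity) P.small (by linarith [h1.1]) (by linarith [h1.2]) (by linarith [h2.1])
    (by linarith [h2.2]) (by positivity) P.tiny (by
      rw [← hs, hb]
      have e1 : f (false, ⟨i, by omega⟩) = hf m (pv m i) - 1 / ((m : ℝ) + 1) + a := by
        rw [← ha, ha']; ring
      have e2 : f (false, ⟨i + 2, by omega⟩) = hf m (pv m i) + 1 / ((m : ℝ) + 1) + c := by
        rw [← hc, hc']; ring
      rw [e1, e2])
  rw [← ha', ← hc']
  refine ⟨⟨fun x hx => ?_, fun x => ?_⟩, key.2.2⟩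
  · have hne : x ≠ pv m i := by
      rintro rfl
      exact hx (mem_image_of_mem _ (mem_univ _))
    rw [relax_ne p (gr m) f _ hne]
    exact hf'.1 x hx
  · by_cases hx : x = pv m i
    · subst hx
      rw [← hy]
      exact ⟨key.1, key.2.1⟩
    · rw [relax_ne p (gr m) f _ hx]
      exact hf'.2 x

/-- summation by parts against `k (m + 1 - k)` -/
theorem sbp (m : ℕ) (g : ℕ → ℝ) (g0 : g 0 = 0) (gl : g (m + 1) = 0) :
    ∑ i ∈ range m, (((i : ℝ) + 1) * (m - i)) * (g i + g (i + 2)) =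
      2 * (∑ i ∈ range m, (((i : ℝ) + 1) * (m - i)) * g (i + 1)) -
        2 * ∑ i ∈ range m, g (i + 1) := by
  obtain ⟨φ, hφ⟩ : ∃ φ : ℕ → ℝ, φ = fun k : ℕ => (k : ℝ) * (m + 1 - k) := ⟨_, rfl⟩
  have e0 : ∀ i : ℕ, (((i : ℝ) + 1) * (m - i)) = φ (i + 1) := by
    intro i
    rw [hφ]
    push_cast
    ring
  simp only [e0]
  have h1 : ∑ i ∈ range (m + 1), φ (i + 1) * g i =
      ∑ i ∈ range m, φ (i + 1) * g i + φ (m + 1) * g m := sum_range_succ _ _
  have h2 : ∑ i ∈ range (m + 1), φ (i + 1) * g i =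
      ∑ i ∈ range m, φ (i + 1 + 1) * g (i + 1) + φ (0 + 1) * g 0 := sum_range_succ' _ _
  have h3 : ∑ i ∈ range (m + 1), φ i * g (i + 1) =
      ∑ i ∈ range m, φ i * g (i + 1) + φ m * g (m + 1) := sum_range_succ _ _
  have h4 : ∑ i ∈ range (m + 1), φ i * g (i + 1) =
      ∑ i ∈ range m, φ (i + 1) * g (i + 1 + 1) + φ 0 * g (0 + 1) := sum_range_succ' _ _
  have h5 : φ (m + 1) = 0 := by rw [hφ]; push_cast; ring
  have h6 : φ 0 = 0 := by rw [hφ]; simp
  rw [g0] at h2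
  rw [gl] at h3
  have h7 : ∀ i : ℕ, φ i + φ (i + 1 + 1) = 2 * φ (i + 1) - 2 := by
    intro i
    rw [hφ]
    push_cast
    ring
  have h8 : ∑ i ∈ range m, φ i * g (i + 1) + ∑ i ∈ range m, φ (i + 1 + 1) * g (i + 1) =
      2 * (∑ i ∈ range m, φ (i + 1) * g (i + 1)) - 2 * ∑ i ∈ range m, g (i + 1) := by
    rw [← sum_add_distrib, mul_sum, mul_sum, ← sum_sub_distrib]
    refine sum_congr rfl fun i _ => ?_
    have := h7 i
    linear_combination g (i + 1) * this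
  have h9 : ∑ i ∈ range m, φ (i + 1) * (g i + g (i + 2)) =
      ∑ i ∈ range m, φ (i + 1) * g i + ∑ i ∈ range m, φ (i + 1) * g (i + 1 + 1) := by
    rw [← sum_add_distrib]
    exact sum_congr rfl fun i _ => by ring
  rw [h9, ← h8]
  have h10 : φ (m + 1) * g m = 0 := by rw [h5]; ring
  have h11 : φ 0 * g (0 + 1) = 0 := by rw [h6]; ring
  linarith

/-- the weight `(i+1)(m-i)` -/
def wt (m : ℕ) (i : Fin m) : ℝ := ((i : ℕ) + 1 : ℝ) * ((m : ℝ) - (i : ℕ))

theorem wt_nonneg (m : ℕ) (i : Fin m) : 0 ≤ wt m i := by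
  unfold wt
  have : ((i : ℕ) : ℝ) ≤ m := by exact_mod_cast i.2.le
  have h2 : (0 : ℝ) ≤ (i : ℕ) := by positivity
  apply mul_nonneg <;> linarith

theorem wt_le (m : ℕ) (i : Fin m) : wt m i ≤ ((m : ℝ) + 1) ^ 2 / 4 := by
  unfold wt
  nlinarith [sq_nonneg (((i : ℕ) + 1 : ℝ) - ((m : ℝ) - (i : ℕ)))]

/-- the weighted distance to the target -/
noncomputable def X (m : ℕ) (f : Bool × Fin (m + 2) → ℝ) : ℝ :=
  ∑ i : Fin m, wt m i * (f (pv m i) - hf m (pv m i))

theorem X_relax (p : ℝ) (m : ℕ) (f : Bool × Fin (m + 2) → ℝ) (i : Fin m) :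
    X m (relax p (gr m) f (pv m i)) = X m f +
      wt m i * (relax p (gr m) f (pv m i) (pv m i) - f (pv m i)) := by
  unfold X
  have h : ∀ j : Fin m, wt m j * (relax p (gr m) f (pv m i) (pv m j) - hf m (pv m j)) =
      wt m j * (f (pv m j) - hf m (pv m j)) +
        if j = i then wt m i * (relax p (gr m) f (pv m i) (pv m i) - f (pv m i)) else 0 := by
    intro j
    split_ifs with hj
    · subst hj
      ring
    · rw [relax_ne p (gr m) f _ (fun h => hj (pv_inj m h))]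
      ring
  rw [sum_congr rfl fun j _ => h j, sum_add_distrib]
  simp

theorem drift {p : ℝ} {m : ℕ} {η : ℝ} (P : Par p m η) {f : Bool × Fin (m + 2) → ℝ}
    (hf' : Good m η f) :
    (m : ℝ) * X m f - 5 / 4 * η * m ≤ ∑ i : Fin m, X m (relax p (gr m) f (pv m i)) := by
  obtain ⟨g, hg⟩ : ∃ g : ℕ → ℝ, g = fun k => if h : k < m + 2 then
      f (false, ⟨k, h⟩) - hf m (false, ⟨k, h⟩) else 0 := ⟨_, rfl⟩
  have hgk : ∀ k (h : k < m + 2), g k = f (false, ⟨k, h⟩) - hf m (false, ⟨k, h⟩) := by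
    intro k h
    rw [hg]
    simp [h]
  have g0 : g 0 = 0 := by
    rw [hgk 0 (by omega), hf'.1 _ (by rw [mem_inn]; simp)]
    ring
  have gl : g (m + 1) = 0 := by
    rw [hgk (m + 1) (by omega), hf'.1 _ (by rw [mem_inn]; simp)]
    ring
  have gpv : ∀ i : Fin m, f (pv m i) - hf m (pv m i) = g (i + 1) := fun i =>
    (hgk (i + 1) (by omega)).symm
  have gnn : ∀ k, 0 ≤ g k ∧ g k ≤ η := by
    intro k
    by_cases h : k < m + 2
    · rw [hgk k h]
      have := hf'.2 (false, ⟨k, h⟩)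
      constructor <;> linarith
    · rw [hg]
      simp only [dif_neg h]
      exact ⟨le_refl _, P.pos.le⟩
  obtain ⟨δ, hδ⟩ : ∃ δ : ℝ, δ = 1 / ((m : ℝ) + 1) ^ 2 := ⟨_, rfl⟩
  have hL : (0 : ℝ) < (m : ℝ) + 1 := by positivity
  have hδ0 : 0 ≤ δ := by rw [hδ]; positivity
  have h1 : ∀ i : Fin m, X m f + wt m i * ((1 - δ) * ((g i + g (i + 2)) / 2) - g (i + 1)) ≤
      X m (relax p (gr m) f (pv m i)) := by
    intro i
    rw [X_relax]
    have hs := (step P hf' i).2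
    rw [← hδ, ← hgk i (by omega), ← hgk (i + 2) (by omega)] at hs
    have := gpv i
    have h2 : (1 - δ) * ((g i + g (i + 2)) / 2) - g (i + 1) ≤
        relax p (gr m) f (pv m i) (pv m i) - f (pv m i) := by linarith
    have := mul_le_mul_of_nonneg_left h2 (wt_nonneg m i)
    linarith
  refine le_trans ?_ (sum_le_sum fun i _ => h1 i)
  rw [sum_add_distrib]
  have e1 : ∑ i : Fin m, wt m i * ((1 - δ) * ((g i + g (i + 2)) / 2) - g (i + 1)) =
      ∑ i ∈ range m, (((i : ℝ) + 1) * (m - i)) *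
        ((1 - δ) * ((g i + g (i + 2)) / 2) - g (i + 1)) := by
    rw [Finset.sum_range]
    rfl
  have e2 : ∑ i ∈ range m, (((i : ℝ) + 1) * (m - i)) *
        ((1 - δ) * ((g i + g (i + 2)) / 2) - g (i + 1)) =
      (1 - δ) / 2 * (∑ i ∈ range m, (((i : ℝ) + 1) * (m - i)) * (g i + g (i + 2))) -
        ∑ i ∈ range m, (((i : ℝ) + 1) * (m - i)) * g (i + 1) := by
    rw [mul_sum, ← sum_sub_distrib]
    exact sum_congr rfl fun i _ => by ring
  rw [e1, e2, sbp m g g0 gl]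
  obtain ⟨S, hS⟩ : ∃ S, S = ∑ i ∈ range m, (((i : ℝ) + 1) * (m - i)) * g (i + 1) := ⟨_, rfl⟩
  obtain ⟨S1, hS1⟩ : ∃ S1, S1 = ∑ i ∈ range m, g (i + 1) := ⟨_, rfl⟩
  rw [← hS, ← hS1]
  have hS1le : S1 ≤ m * η := by
    rw [hS1]
    calc ∑ i ∈ range m, g (i + 1) ≤ ∑ i ∈ range m, η := sum_le_sum fun i _ => (gnn _).2
      _ = m * η := by simp
  have hS10 : 0 ≤ S1 := by
    rw [hS1]
    exact sum_nonneg fun i _ => (gnn _).1
  have hSle : S ≤ m * (((m : ℝ) + 1) ^ 2 / 4 * η) := by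
    have : S = ∑ i : Fin m, wt m i * g (i + 1) := by
      rw [hS, Finset.sum_range]
      rfl
    rw [this]
    calc ∑ i : Fin m, wt m i * g (i + 1) ≤ ∑ i : Fin m, ((m : ℝ) + 1) ^ 2 / 4 * η :=
          sum_le_sum fun i _ => mul_le_mul (wt_le m i) (gnn _).2 (gnn _).1 (by positivity)
      _ = m * (((m : ℝ) + 1) ^ 2 / 4 * η) := by simp
  have hδS : δ * S ≤ m * η / 4 := by
    calc δ * S ≤ δ * (m * (((m : ℝ) + 1) ^ 2 / 4 * η)) := mul_le_mul_of_nonneg_left hSle hδ0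
      _ = m * η / 4 := by
        rw [hδ]
        field_simp
  have e3 : ∑ i : Fin m, X m f = m * X m f := by simp
  rw [e3]
  nlinarith [mul_nonneg hδ0 hS10]

end Pool.Agent.V11233.LpR
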