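import Pool.Agent.V11233.LpR.Core

set_option autoImplicit false
set_option linter.unusedSectionVars false

open Finset

namespace Pool.Agent.V11233.LpR

/-- The graph: a path `(false, 0), …, (false, m+1)`, a copy `(true, i)` of every path vertex,
joined to it, and `(true, 0)` is joined to all other copies. -/
def gr (m : ℕ) : SimpleGraph (Bool × Fin (m + 2)) where
  Adj x y :=
    (x.1 = false ∧ y.1 = false ∧ ((x.2 : ℕ) + 1 = y.2 ∨ (y.2 : ℕ) + 1 = x.2)) ∨
    (x.1 ≠ y.1 ∧ x.2 = y.2) ∨
    (x.1 = true ∧ y.1 = true ∧ x.2 ≠ y.2 ∧ ((x.2 : ℕ) = 0 ∨ (y.2 : ℕ) = 0))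
  symm := ⟨by
    rintro x y (h | h | h)
    · exact Or.inl ⟨h.2.1, h.1, h.2.2.symm⟩
    · exact Or.inr (Or.inl ⟨h.1.symm, h.2.symm⟩)
    · exact Or.inr (Or.inr ⟨h.2.1, h.1, h.2.2.1.symm, h.2.2.2.symm⟩)⟩
  loopless := ⟨by
    rintro x (h | h | h)
    · rcases h.2.2 with h | h <;> omega
    · exact h.1 rfl
    · exact h.2.2.1 rfl⟩

instance (m : ℕ) : DecidableRel (gr m).Adj := fun x y => by
  unfold gr
  infer_instance

/-- the interior path vertex number `i + 1` -/
def pv (m : ℕ) (i : Fin m) : Bool × Fin (m + 2) := (false, ⟨i + 1, by omega⟩)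

theorem pv_inj (m : ℕ) : Function.Injective (pv m) := by
  intro i j h
  simp only [pv, Prod.mk.injEq, Fin.mk.injEq, true_and] at h
  exact Fin.ext (by omega)

/-- the interior vertices -/
def inn (m : ℕ) : Finset (Bool × Fin (m + 2)) := univ.image (pv m)

theorem card_inn (m : ℕ) : (inn m).card = m := by
  unfold inn
  rw [card_image_of_injective _ (pv_inj m)]
  simp

theorem mem_inn {m : ℕ} {x : Bool × Fin (m + 2)} :
    x ∈ inn m ↔ x.1 = false ∧ 1 ≤ (x.2 : ℕ) ∧ (x.2 : ℕ) ≤ m := by
  unfold inn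
  simp only [mem_image, mem_univ, true_and, pv]
  constructor
  · rintro ⟨i, rfl⟩
    simp
  · rintro ⟨h1, h2, h3⟩
    refine ⟨⟨x.2 - 1, by omega⟩, ?_⟩
    ext
    · simp [h1]
    · simp; omega

theorem nbr (m : ℕ) (i : Fin m) :
    (gr m).neighborFinset (pv m i) =
      {(false, ⟨i, by omega⟩), (false, ⟨i + 2, by omega⟩), (true, ⟨i + 1, by omega⟩)} := by
  ext ⟨b, j⟩
  rw [SimpleGraph.mem_neighborFinset]
  simp only [mem_insert, mem_singleton, Prod.mk.injEq]
  constructor
  · rintro (⟨_, h1, h⟩ | ⟨h1, h⟩ | ⟨h1, _⟩)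
    · simp only [pv] at h1 h
      rcases h with h | h
      · exact Or.inr (Or.inl ⟨h1, Fin.ext h.symm⟩)
      · exact Or.inl ⟨h1, Fin.ext (by
          change (j : ℕ) = i
          omega)⟩
    · simp only [pv] at h1 h
      refine Or.inr (Or.inr ⟨?_, h.symm⟩)
      cases b
      · exact absurd rfl h1
      · rfl
    · simp [pv] at h1
  · rintro (⟨h1, h⟩ | ⟨h1, h⟩ | ⟨h1, h⟩)
    · subst h1 h
      exact Or.inl ⟨rfl, rfl, Or.inr rfl⟩
    · subst h1 h
      exact Or.inl ⟨rfl, rfl, Or.inl rfl⟩
    · subst h1 h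
      exact Or.inr (Or.inl ⟨by simp [pv], rfl⟩)

theorem sum_nbr (m : ℕ) (i : Fin m) (F : Bool × Fin (m + 2) → ℝ) :
    ∑ w ∈ (gr m).neighborFinset (pv m i), F w =
      F (false, ⟨i, by omega⟩) + F (false, ⟨i + 2, by omega⟩) + F (true, ⟨i + 1, by omega⟩) := by
  rw [nbr, sum_insert, sum_insert, sum_singleton]
  · ring
  · simp
  · simp [Fin.ext_iff]

/-- everything is within distance 2 of the hub `(true, 0)` -/
theorem edist_hub (m : ℕ) (x : Bool × Fin (m + 2)) : (gr m).edist (true, 0) x ≤ 2 := by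
  obtain ⟨b, j⟩ := x
  have h1 : (gr m).edist (true, 0) (true, j) ≤ 1 := by
    by_cases hj : j = 0
    · subst hj; simp
    · exact (SimpleGraph.edist_eq_one_iff_adj.2 (by
        right; right
        refine ⟨rfl, rfl, fun h => hj h.symm, Or.inl rfl⟩)).le
  cases b
  · have h2 : (gr m).edist (true, j) (false, j) ≤ 1 :=
      (SimpleGraph.edist_eq_one_iff_adj.2 (by
        right; left
        exact ⟨by simp, rfl⟩)).le
    calc (gr m).edist (true, 0) (false, j) ≤
        (gr m).edist (true, 0) (true, j) + (gr m).edist (true, j) (false, j) :=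
          SimpleGraph.edist_triangle
      _ ≤ 1 + 1 := add_le_add h1 h2
      _ = 2 := by norm_num
  · exact h1.trans (by norm_num)

theorem ediam_gr (m : ℕ) : (gr m).ediam ≤ 4 := by
  have h1 : (gr m).eccent (true, 0) ≤ 2 := (SimpleGraph.eccent_le_iff _ _).2 (edist_hub m)
  calc (gr m).ediam ≤ 2 * (gr m).eccent (true, 0) := SimpleGraph.ediam_le_two_mul_eccent _
    _ ≤ 2 * 2 := by gcongr
    _ = 4 := by norm_num

theorem connected_gr (m : ℕ) : (gr m).Connected := by
  apply SimpleGraph.connected_of_ediam_ne_top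
  intro h
  have := ediam_gr m
  rw [h] at this
  exact absurd this (by decide)

theorem diam_gr (m : ℕ) : (gr m).diam ≤ 4 := by
  unfold SimpleGraph.diam
  have := ediam_gr m
  exact ENat.toNat_le_of_le_natCast this

theorem edges_gr (m : ℕ) : (gr m).edgeFinset.card ≤ 3 * (m + 2) := by
  have hsub : (gr m).edgeFinset ⊆
      (univ.image fun i : Fin (m + 2) => s((false, i), (false, ⟨min (i + 1) (m + 1), by omega⟩))) ∪
      (univ.image fun i : Fin (m + 2) => s((false, i), (true, i))) ∪
      (univ.image fun i : Fin (m + 2) => s((true, 0), (true, i))) := by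
    intro e
    induction e with
    | _ x y =>
    intro he
    rw [SimpleGraph.mem_edgeFinset, SimpleGraph.mem_edgeSet] at he
    obtain ⟨b, i⟩ := x
    obtain ⟨c, j⟩ := y
    simp only [mem_union, mem_image, mem_univ, true_and]
    rcases he with h | h | h
    · obtain ⟨h1, h2, h3⟩ := h
      simp only at h1 h2
      subst h1 h2
      left; left
      rcases h3 with h3 | h3
      · refine ⟨i, ?_⟩
        simp only at h3
        have : (⟨min ((i : ℕ) + 1) (m + 1), by omega⟩ : Fin (m + 2)) = j := Fin.ext (by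
          simp only; omega)
        rw [this]
      · refine ⟨j, ?_⟩
        simp only at h3
        have : (⟨min ((j : ℕ) + 1) (m + 1), by omega⟩ : Fin (m + 2)) = i := Fin.ext (by
          simp only; omega)
        rw [this, Sym2.eq_swap]
    · obtain ⟨h1, h2⟩ := h
      simp only at h1 h2
      subst h2
      left; right
      refine ⟨i, ?_⟩
      cases b <;> cases c <;> simp_all [Sym2.eq_swap]
    · obtain ⟨h1, h2, _, h4⟩ := h
      simp only at h1 h2 h4
      subst h1 h2
      right
      rcases h4 with h4 | h4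
      · refine ⟨j, ?_⟩
        have : i = 0 := Fin.ext h4
        rw [this]
      · refine ⟨i, ?_⟩
        have : j = 0 := Fin.ext h4
        rw [this, Sym2.eq_swap]
  have h1 := card_le_card hsub
  refine h1.trans ((card_union_le _ _).trans ?_)
  have h2 : ∀ f : Fin (m + 2) → Sym2 (Bool × Fin (m + 2)), (univ.image f).card ≤ m + 2 := by
    intro f
    exact card_image_le.trans (by simp)
  have h3 := card_union_le (univ.image fun i : Fin (m + 2) =>
      s((false, i), ((false, ⟨min (i + 1) (m + 1), by omega⟩) : Bool × Fin (m + 2))))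
      (univ.image fun i : Fin (m + 2) => s((false, i), (true, i)))
  have := h2 fun i : Fin (m + 2) =>
      s((false, i), ((false, ⟨min (i + 1) (m + 1), by omega⟩) : Bool × Fin (m + 2)))
  have := h2 fun i : Fin (m + 2) => s((false, i), (true, i))
  have := h2 fun i : Fin (m + 2) => s((true, 0), (true, i))
  omega

end Pool.Agent.V11233.LpR
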