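import Pool.Agent.V11233.LpR.Prob

set_option autoImplicit false
set_option linter.unusedSectionVars false

open Finset MeasureTheory ProbabilityTheory
open scoped ENNReal

namespace Pool.Agent.V11233.LpR

/-- sequences of independent uniform choices exist -/
theorem exists_uniformSeq {V : Type} (I : Finset V) (hI : I.Nonempty) :
    ∃ (Ω : Type) (_ : MeasurableSpace Ω) (μ : Measure Ω) (v : ℕ → Ω → V),
      IsProbabilityMeasure μ ∧ IsUniformSeq I μ v := by
  classical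
  let _ : MeasurableSpace V := ⊤
  have _ : IsProbabilityMeasure (uniformOn (I : Set V)) :=
    isProbabilityMeasure_uniformOn I.finite_toSet (by simpa using hI)
  obtain ⟨Ω, mΩ, P, X, hX, hlaw, hind, hP⟩ := exists_iid ℕ (uniformOn (I : Set V))
  refine ⟨Ω, mΩ, P, X, hP, ?_, hind, ?_⟩
  · intro t x
    exact hX t trivial
  · intro t x hx
    have h1 : P.map (X t) {x} = uniformOn (I : Set V) {x} := by rw [(hlaw t).map_eq]
    rw [Measure.map_apply (hX t) trivial] at h1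
    rw [h1]
    have h2 : uniformOn (I : Set V) (({x} : Finset V) : Set V) = _ := uniformOn_apply_finset
    rw [coe_singleton] at h2
    rw [h2, inter_singleton_of_mem hx]
    simp

/-- the size of the perturbation -/
noncomputable def eta (p : ℝ) (m : ℕ) : ℝ :=
  1 / ((m : ℝ) + 1) / 2 * (1 / ((m : ℝ) + 1) ^ 2) ^ (1 / (p - 2))

theorem par_eta {p : ℝ} (hp : 2 < p) (m : ℕ) : Par p m (eta p m) := by
  have hk : (0 : ℝ) < (m : ℝ) + 1 := by positivity
  have hq : 0 < p - 2 := by linarith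
  have h0 : (0 : ℝ) < 1 / ((m : ℝ) + 1) ^ 2 := by positivity
  have h1 : (1 : ℝ) / ((m : ℝ) + 1) ^ 2 ≤ 1 := by
    rw [div_le_one (by positivity)]
    have : (0 : ℝ) ≤ m := by positivity
    nlinarith
  refine ⟨hp, ?_, ?_, ?_⟩
  · unfold eta
    exact mul_pos (by positivity) (Real.rpow_pos_of_pos h0 _)
  · unfold eta
    have h2 : (1 / ((m : ℝ) + 1) ^ 2) ^ (1 / (p - 2)) ≤ 1 :=
      Real.rpow_le_one h0.le h1 (by positivity)
    have h3 : 0 < 1 / ((m : ℝ) + 1) := by positivity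
    nlinarith
  · unfold eta
    rw [Real.mul_rpow (by positivity) (Real.rpow_nonneg h0.le _), ← Real.rpow_mul h0.le,
      one_div_mul_cancel hq.ne', Real.rpow_one, mul_comm]

theorem Par.quarter {p : ℝ} {m : ℕ} {η : ℝ} (P : Par p m η) : Par p m (η / 4) := by
  have := P.pos
  have := P.hp
  refine ⟨P.hp, by linarith, by linarith [P.small], le_trans ?_ P.tiny⟩
  exact Real.rpow_le_rpow (by linarith) (by linarith) (by linarith)

/-- the target profile -/
theorem harm {p : ℝ} (hp : 2 < p) (m : ℕ) (η : ℝ) :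
    IsHarmExt p (gr m) (inn m) (fz m η) (hf m) ∧
      ∀ h', IsHarmExt p (gr m) (inn m) (fz m η) h' → h' = hf m := by
  refine harm_of_EL p (gr m) hp (connected_gr m) (inn m) ⟨(true, 0), fun h => ?_⟩ _ _ ?_ ?_
  · have := (mem_inn.1 h).1
    simp at this
  · intro v hv
    simp [fz, hv]
  · intro v hv
    unfold inn at hv
    simp only [mem_image, mem_univ, true_and] at hv
    obtain ⟨i, rfl⟩ := hv
    rw [sum_nbr]
    have hk : (m : ℝ) + 1 ≠ 0 := by positivity
    have e1 : hf m (pv m i) - hf m (false, ⟨i, by omega⟩) = 1 / ((m : ℝ) + 1) := by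
      simp only [hf, pv]
      push_cast
      field_simp
      ring
    have e2 : hf m (pv m i) - hf m (false, ⟨i + 2, by omega⟩) = -(1 / ((m : ℝ) + 1)) := by
      simp only [hf, pv]
      push_cast
      field_simp
      ring
    have e3 : hf m (pv m i) - hf m (true, ⟨i + 1, by omega⟩) = 0 := by
      simp only [hf, pv]
      ring
    rw [e1, e2, e3, psi_neg]
    simp [psi]

theorem fz_mem {m : ℕ} {η : ℝ} (h0 : 0 ≤ η) (h1 : 2 * η ≤ 1 / ((m : ℝ) + 1))
    (x : Bool × Fin (m + 2)) : 0 ≤ fz m η x ∧ fz m η x ≤ 1 := by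
  have hk : (0 : ℝ) < (m : ℝ) + 1 := by positivity
  have h2 : 0 ≤ hf m x := by unfold hf; positivity
  unfold fz
  split_ifs with hx
  · refine ⟨by linarith, ?_⟩
    have h3 : ((x.2 : ℕ) : ℝ) ≤ m := by exact_mod_cast (mem_inn.1 hx).2.2
    have h4 : hf m x ≤ (m : ℝ) / ((m : ℝ) + 1) := by
      unfold hf
      gcongr
    have h5 : (m : ℝ) / ((m : ℝ) + 1) + 1 / ((m : ℝ) + 1) = 1 := by field_simp
    have h6 : 0 < 1 / ((m : ℝ) + 1) := by positivity
    linarith
  · refine ⟨h2, ?_⟩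
    unfold hf
    rw [div_le_one hk]
    have : (x.2 : ℕ) ≤ m + 1 := by omega
    exact_mod_cast this

/-- the logarithmic term -/
theorem log_bound {p : ℝ} (hp : 2 < p) {m : ℕ} (hm : 14 ≤ m) :
    Real.log (Fintype.card (Bool × Fin (m + 2)) / (eta p m / 4)) ≤
      (6 + 2 / (p - 2)) * Real.log ((m : ℝ) + 2) := by
  have hk : (0 : ℝ) < (m : ℝ) + 1 := by positivity
  have hM : (0 : ℝ) < (m : ℝ) + 2 := by positivity
  have hq : 0 < p - 2 := by linarith
  have hc : (Fintype.card (Bool × Fin (m + 2)) : ℝ) = 2 * ((m : ℝ) + 2) := by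
    simp
  have hη := (par_eta hp m).pos
  have e1 : (Fintype.card (Bool × Fin (m + 2)) : ℝ) / (eta p m / 4) =
      16 * ((m : ℝ) + 2) * ((m : ℝ) + 1) * ((((m : ℝ) + 1) ^ 2) ^ (1 / (p - 2))) := by
    rw [hc]
    unfold eta
    rw [one_div (((m : ℝ) + 1) ^ 2), Real.inv_rpow (by positivity)]
    have : 0 < (((m : ℝ) + 1) ^ 2) ^ (1 / (p - 2)) := Real.rpow_pos_of_pos (by positivity) _
    field_simp
    ring
  have hm' : (14 : ℝ) ≤ m := by exact_mod_cast hm
  have hl : 0 ≤ Real.log ((m : ℝ) + 2) := Real.log_nonneg (by linarith)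
  have h1 : Real.log ((m : ℝ) + 1) ≤ Real.log ((m : ℝ) + 2) :=
    Real.log_le_log hk (by linarith)
  have h16 : Real.log 16 ≤ Real.log ((m : ℝ) + 2) :=
    Real.log_le_log (by norm_num) (by linarith)
  have hlast : Real.log ((((m : ℝ) + 1) ^ 2) ^ (1 / (p - 2))) =
      2 / (p - 2) * Real.log ((m : ℝ) + 1) := by
    rw [Real.log_rpow (by positivity), Real.log_pow]
    push_cast
    ring
  rw [e1, Real.log_mul (by positivity) (Real.rpow_pos_of_pos (by positivity) _).ne',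
    Real.log_mul (by positivity) (by positivity), Real.log_mul (by norm_num) (by positivity),
    hlast]
  have h2 : 2 / (p - 2) * Real.log ((m : ℝ) + 1) ≤ 2 / (p - 2) * Real.log ((m : ℝ) + 2) :=
    mul_le_mul_of_nonneg_left h1 (by positivity)
  nlinarith

/-- the bound of the question fails -/
theorem exists_m {p : ℝ} (hp : 2 < p) (C : ℝ) : ∃ m : ℕ, 14 ≤ m ∧ ∃ t : ℕ,
    (t : ℝ) ≤ (m : ℝ) * (m + 1) * (m + 2) / 30 ∧ 0 < (t : ℝ) / 2 ∧
    C * ((inn m).card : ℝ) * ((gr m).edgeFinset.card : ℝ) * ((gr m).diam : ℝ) *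
      Real.log (Fintype.card (Bool × Fin (m + 2)) / (eta p m / 4)) < (t : ℝ) / 2 := by
  obtain ⟨A, hA⟩ : ∃ A : ℝ, A = 6 + 2 / (p - 2) := ⟨_, rfl⟩
  have hq : 0 < p - 2 := by linarith
  have hA0 : 0 < A := by rw [hA]; positivity
  obtain ⟨N, hN⟩ := exists_nat_gt (11520 * |C| * A + 4)
  have hCA : 0 ≤ |C| * A := mul_nonneg (abs_nonneg C) hA0.le
  have hN4' : (4 : ℝ) < N := by nlinarith
  have hN4 : 4 ≤ N := by exact_mod_cast hN4'.le
  have hNN : 16 ≤ N ^ 2 := by nlinarith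
  obtain ⟨m, hm⟩ : ∃ m, m = N ^ 2 - 2 := ⟨_, rfl⟩
  have hm2 : m + 2 = N ^ 2 := by omega
  have hm2' : (m : ℝ) + 2 = (N : ℝ) ^ 2 := by exact_mod_cast hm2
  have hm14 : 14 ≤ m := by omega
  have hm14' : (14 : ℝ) ≤ m := by exact_mod_cast hm14
  obtain ⟨T, hT⟩ : ∃ T : ℝ, T = (m : ℝ) * (m + 1) * (m + 2) / 30 := ⟨_, rfl⟩
  have hT0 : 0 ≤ T := by rw [hT]; positivity
  have h1 := Nat.floor_le hT0
  have h2 := Nat.lt_floor_add_one T
  obtain ⟨M, hM⟩ : ∃ M : ℝ, M = (m : ℝ) + 2 := ⟨_, rfl⟩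
  have hM16 : 16 ≤ M := by rw [hM]; linarith
  have hTM : M ^ 3 / 240 ≤ T / 2 := by
    rw [hT, hM]
    have hmm : (m : ℝ) = M - 2 := by linarith
    have h3 : M / 2 ≤ (m : ℝ) := by linarith
    have h4 : M / 2 ≤ (m : ℝ) + 1 := by linarith
    have h5 : M / 2 * (M / 2) ≤ (m : ℝ) * (m + 1) :=
      mul_le_mul h3 h4 (by linarith) (by linarith)
    have h6 : M / 2 * (M / 2) * M ≤ (m : ℝ) * (m + 1) * M :=
      mul_le_mul_of_nonneg_right h5 (by linarith)
    rw [← hM]
    nlinarith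
  have hfl : M ^ 3 / 480 < (⌊T⌋₊ : ℝ) / 2 := by
    have h3 : (16 : ℝ) ^ 3 ≤ M ^ 3 := by gcongr
    have h4 : M ^ 3 / 480 + 1 ≤ M ^ 3 / 240 := by nlinarith
    linarith
  refine ⟨m, hm14, ⌊T⌋₊, ?_, ?_, ?_⟩
  · rw [← hT]; exact h1
  · have : 0 ≤ M ^ 3 := by positivity
    linarith
  refine lt_of_le_of_lt ?_ hfl
  have hL := log_bound hp hm14
  have hL0 : 0 ≤ Real.log (Fintype.card (Bool × Fin (m + 2)) / (eta p m / 4)) := by
    apply Real.log_nonneg
    have P := par_eta hp m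
    have h5 : (1 : ℝ) / ((m : ℝ) + 1) ≤ 1 := by
      rw [div_le_one (by positivity)]; linarith
    have h6 : eta p m / 4 ≤ 1 := by linarith [P.small]
    rw [one_le_div (by linarith [P.pos])]
    have : (Fintype.card (Bool × Fin (m + 2)) : ℝ) = 2 * ((m : ℝ) + 2) := by simp
    rw [this]
    linarith
  have hlogM : Real.log ((m : ℝ) + 2) ≤ 2 * N := by
    rw [hm2', Real.log_pow]
    push_cast
    have := Real.log_le_sub_one_of_pos (x := (N : ℝ)) (by linarith)
    linarith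
  rw [← hA] at hL
  have hE : ((gr m).edgeFinset.card : ℝ) ≤ 3 * M := by
    rw [hM]
    exact_mod_cast edges_gr m
  have hD : ((gr m).diam : ℝ) ≤ 4 := by exact_mod_cast diam_gr m
  have hI : ((inn m).card : ℝ) ≤ M := by
    rw [card_inn, hM]; linarith
  have hLL : Real.log (Fintype.card (Bool × Fin (m + 2)) / (eta p m / 4)) ≤ A * (2 * N) :=
    hL.trans (mul_le_mul_of_nonneg_left hlogM hA0.le)
  have hN0 : (0 : ℝ) < N := by linarith
  calc C * ((inn m).card : ℝ) * ((gr m).edgeFinset.card : ℝ) * ((gr m).diam : ℝ) *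
      Real.log (Fintype.card (Bool × Fin (m + 2)) / (eta p m / 4))
      ≤ |C| * ((inn m).card : ℝ) * ((gr m).edgeFinset.card : ℝ) * ((gr m).diam : ℝ) *
      Real.log (Fintype.card (Bool × Fin (m + 2)) / (eta p m / 4)) := by
        gcongr
        exact le_abs_self C
    _ ≤ |C| * M * (3 * M) * 4 * (A * (2 * N)) := by
        gcongr
    _ = 24 * (|C| * A) * ((N : ℝ) ^ 4 * N) := by
        rw [hM, hm2']; ring
    _ ≤ N / 480 * ((N : ℝ) ^ 4 * N) := by
        apply mul_le_mul_of_nonneg_right _ (by positivity)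
        linarith
    _ = M ^ 3 / 480 := by
        rw [hM, hm2']; ring

end Pool.Agent.V11233.LpR
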