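import Pool.Agent.V11233.LpR.Dyn

set_option autoImplicit false
set_option linter.unusedSectionVars false

open Finset MeasureTheory ProbabilityTheory
open scoped ENNReal

namespace Pool.Agent.V11233.LpR

/-- The first time `t` at which the profile is within `ε` of `h` everywhere (`⊤` if there is
none), for the update sequence `ω`. -/
noncomputable def hitTime {V : Type} [Fintype V] [DecidableEq V] (p : ℝ) (G : SimpleGraph V)
    [DecidableRel G.Adj] (f₀ h : V → ℝ) (ε : ℝ) (ω : ℕ → V) : ℝ≥0∞ :=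
  ⨅ (t : ℕ) (_ : ∀ x, |run p G f₀ ω t x - h x| ≤ ε), (t : ℝ≥0∞)

/-- `v 0, v 1, …` are independent and uniformly distributed on the finite set `I`. -/
def IsUniformSeq {V : Type} (I : Finset V) {Ω : Type} [MeasurableSpace Ω] (μ : Measure Ω)
    (v : ℕ → Ω → V) : Prop :=
  (∀ t x, MeasurableSet (v t ⁻¹' {x})) ∧
    iIndepFun (m := fun _ => (⊤ : MeasurableSpace V)) v μ ∧
    ∀ t, ∀ x ∈ I, μ (v t ⁻¹' {x}) = (I.card : ℝ≥0∞)⁻¹

/-! ### Words -/

/-- the profile after relaxing the path vertices listed in `w` -/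
noncomputable def runW (p : ℝ) (m : ℕ) (f₀ : Bool × Fin (m + 2) → ℝ) :
    (t : ℕ) → (Fin t → Fin m) → Bool × Fin (m + 2) → ℝ
  | 0, _ => f₀
  | t + 1, w => relax p (gr m) (runW p m f₀ t (Fin.init w)) (pv m (w (Fin.last t)))

theorem run_eq (p : ℝ) (m : ℕ) (f₀ : Bool × Fin (m + 2) → ℝ) (ω : ℕ → Bool × Fin (m + 2)) :
    ∀ (t : ℕ) (w : Fin t → Fin m), (∀ s : Fin t, ω s = pv m (w s)) →
      run p (gr m) f₀ ω t = runW p m f₀ t w := by
  intro t
  induction t with
  | zero => intro w _; rfl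
  | succ t ih =>
    intro w h
    have h1 := ih (Fin.init w) fun s => h s.castSucc
    have h2 := h (Fin.last t)
    rw [Fin.val_last] at h2
    simp only [run, runW, h1, h2]

theorem good_runW {p : ℝ} {m : ℕ} {η : ℝ} (P : Par p m η) {f₀ : Bool × Fin (m + 2) → ℝ}
    (h0 : Good m η f₀) : ∀ (t : ℕ) (w : Fin t → Fin m), Good m η (runW p m f₀ t w) := by
  intro t
  induction t with
  | zero => intro w; exact h0
  | succ t ih => intro w; exact (step P (ih _) _).1

theorem good_run_later {p : ℝ} {m : ℕ} {η : ℝ} (P : Par p m η) {f₀ : Bool × Fin (m + 2) → ℝ}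
    (ω : ℕ → Bool × Fin (m + 2)) (t : ℕ) (w : Fin t → Fin m)
    (hw : ∀ s : Fin t, ω s = pv m (w s)) (s : ℕ)
    (h : Good m η (run p (gr m) f₀ ω s)) :
    ∀ k, s + k ≤ t → Good m η (run p (gr m) f₀ ω (s + k)) := by
  intro k
  induction k with
  | zero => intro _; exact h
  | succ k ih =>
    intro hk
    have h1 := ih (by omega)
    have h2 := hw ⟨s + k, by omega⟩
    change Good m η (relax p (gr m) (run p (gr m) f₀ ω (s + k)) (ω (s + k)))
    simp only at h2
    rw [h2]
    exact (step P h1 _).1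

/-- average drift -/
theorem sum_X {p : ℝ} {m : ℕ} {η : ℝ} (P : Par p m η) {f₀ : Bool × Fin (m + 2) → ℝ}
    (h0 : Good m η f₀) : ∀ t : ℕ, (m : ℝ) ^ t * (X m f₀ - 5 / 4 * η * t) ≤
      ∑ w : Fin t → Fin m, X m (runW p m f₀ t w) := by
  intro t
  induction t with
  | zero => simp [runW]
  | succ t ih =>
    rw [← (Fin.snocEquiv (fun _ : Fin (t + 1) => Fin m)).sum_comp, Fintype.sum_prod_type,
      sum_comm]
    have h1 : ∀ w : Fin t → Fin m, (m : ℝ) * X m (runW p m f₀ t w) - 5 / 4 * η * m ≤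
        ∑ i : Fin m, X m (runW p m f₀ (t + 1)
          ((Fin.snocEquiv (fun _ : Fin (t + 1) => Fin m)) (i, w))) := by
      intro w
      refine (drift P (good_runW P h0 t w)).trans (le_of_eq (sum_congr rfl fun i _ => ?_))
      have e1 : Fin.init ((Fin.snocEquiv (fun _ : Fin (t + 1) => Fin m)) (i, w)) = w := by
        funext s
        simp [Fin.init]
      have e2 : ((Fin.snocEquiv (fun _ : Fin (t + 1) => Fin m)) (i, w)) (Fin.last t) = i := by
        simp
      rw [runW, e1, e2]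
    refine le_trans ?_ (sum_le_sum fun w _ => h1 w)
    rw [sum_sub_distrib, ← mul_sum]
    have h2 : ∑ w : Fin t → Fin m, 5 / 4 * η * (m : ℝ) = (m : ℝ) ^ t * (5 / 4 * η * m) := by
      simp
    rw [h2]
    have h3 := mul_le_mul_of_nonneg_left ih (Nat.cast_nonneg (α := ℝ) m)
    push_cast
    calc (m : ℝ) ^ (t + 1) * (X m f₀ - 5 / 4 * η * (t + 1)) =
        (m : ℝ) * ((m : ℝ) ^ t * (X m f₀ - 5 / 4 * η * t)) - (m : ℝ) ^ t * (5 / 4 * η * m) := by
          ring
      _ ≤ _ := by linarith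

/-- the sum of the weights -/
theorem sum_wt (m : ℕ) : ∑ i : Fin m, wt m i = (m : ℝ) * (m + 1) * (m + 2) / 6 := by
  have h : ∀ k : ℕ, ∑ i ∈ range k, (((i : ℕ) + 1 : ℝ) * ((m : ℝ) - (i : ℕ))) =
      (m : ℝ) * k * (k + 1) / 2 - (k - 1) * k * (k + 1) / 3 := by
    intro k
    induction k with
    | zero => simp
    | succ k ih =>
      rw [sum_range_succ, ih]
      push_cast
      ring
  have h2 := h m
  rw [Finset.sum_range] at h2
  have h3 : ∑ i : Fin m, wt m i = ∑ i : Fin m, (((i : ℕ) + 1 : ℝ) * ((m : ℝ) - (i : ℕ))) := rfl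
  rw [h3, h2]
  ring

/-- the initial profile -/
noncomputable def fz (m : ℕ) (η : ℝ) (x : Bool × Fin (m + 2)) : ℝ :=
  if x ∈ inn m then hf m x + η else hf m x

theorem good_fz {m : ℕ} {η : ℝ} (hη : 0 ≤ η) : Good m η (fz m η) := by
  refine ⟨fun x hx => by simp [fz, hx], fun x => ?_⟩
  unfold fz
  split_ifs <;> constructor <;> linarith

theorem X_fz (m : ℕ) (η : ℝ) : X m (fz m η) = η * ((m : ℝ) * (m + 1) * (m + 2) / 6) := by
  unfold X
  rw [← sum_wt, mul_sum]
  refine sum_congr rfl fun i _ => ?_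
  have : pv m i ∈ inn m := mem_image_of_mem _ (mem_univ _)
  simp only [fz, if_pos this]
  ring

open Classical in
/-- words after which the profile is still far from the target -/
noncomputable def bad (p : ℝ) (m : ℕ) (η : ℝ) (t : ℕ) : Finset (Fin t → Fin m) :=
  univ.filter fun w => ∃ i : Fin m, η / 4 < runW p m (fz m η) t w (pv m i) - hf m (pv m i)

theorem card_bad {p : ℝ} {m : ℕ} {η : ℝ} (P : Par p m η) (hm : 0 < m) (t : ℕ)
    (ht : (t : ℝ) ≤ (m : ℝ) * (m + 1) * (m + 2) / 30) :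
    (m : ℝ) ^ t ≤ 2 * ((bad p m η t).card : ℝ) := by
  obtain ⟨W, hW⟩ : ∃ W : ℝ, W = (m : ℝ) * (m + 1) * (m + 2) / 6 := ⟨_, rfl⟩
  have hm' : (0 : ℝ) < m := by exact_mod_cast hm
  have hW0 : 0 < W := by rw [hW]; positivity
  have hη := P.pos
  have h1 := sum_X P (good_fz (m := m) P.pos.le) t
  rw [X_fz, ← hW] at h1
  have hup : ∀ w : Fin t → Fin m, X m (runW p m (fz m η) t w) ≤
      η / 4 * W + if w ∈ bad p m η t then η * W else 0 := by
    intro w
    have hg := good_runW P (good_fz (m := m) P.pos.le) t w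
    have hX : ∀ B : ℝ, (∀ i : Fin m, runW p m (fz m η) t w (pv m i) - hf m (pv m i) ≤ B) →
        X m (runW p m (fz m η) t w) ≤ B * W := by
      intro B hB
      unfold X
      rw [hW, ← sum_wt, mul_sum]
      refine sum_le_sum fun i _ => ?_
      rw [mul_comm B]
      exact mul_le_mul_of_nonneg_left (hB i) (wt_nonneg m i)
    split_ifs with hw
    · have := hX η fun i => by have := (hg.2 (pv m i)).2; linarith
      nlinarith
    · rw [add_zero]
      apply hX
      intro i
      by_contra hcon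
      push Not at hcon
      exact hw (mem_filter.2 ⟨mem_univ _, i, hcon⟩)
  have h2 := h1.trans (sum_le_sum fun w _ => hup w)
  rw [sum_add_distrib] at h2
  have e1 : ∑ w : Fin t → Fin m, η / 4 * W = (m : ℝ) ^ t * (η / 4 * W) := by simp
  have e2 : ∑ w : Fin t → Fin m, (if w ∈ bad p m η t then η * W else 0) =
      ((bad p m η t).card : ℝ) * (η * W) := by
    rw [← sum_filter]
    simp
  rw [e1, e2] at h2
  have h3 : 5 / 4 * η * t ≤ η * W / 4 := by
    rw [hW]
    nlinarith
  have hmt : 0 < (m : ℝ) ^ t := by positivity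
  have h4 : (m : ℝ) ^ t * (η * W - η * W / 4) ≤ (m : ℝ) ^ t * (η * W - 5 / 4 * η * t) :=
    mul_le_mul_of_nonneg_left (by linarith) hmt.le
  have hηW : 0 < η * W := mul_pos hη hW0
  have h5 : (m : ℝ) ^ t * (η * W) ≤ 2 * ((bad p m η t).card : ℝ) * (η * W) := by
    nlinarith
  exact le_of_mul_le_mul_right h5 hηW

/-! ### The expected hitting time -/

theorem lintegral_hit {p : ℝ} {m : ℕ} {η : ℝ} (P : Par p m η) (P' : Par p m (η / 4))
    (hm : 0 < m) (t : ℕ) (ht : (t : ℝ) ≤ (m : ℝ) * (m + 1) * (m + 2) / 30)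
    {Ω : Type} [MeasurableSpace Ω] (μ : Measure Ω) (v : ℕ → Ω → Bool × Fin (m + 2))
    (hv : IsUniformSeq (inn m) μ v) :
    (t : ℝ≥0∞) / 2 ≤
      ∫⁻ ω, hitTime p (gr m) (fz m η) (hf m) (η / 4) (fun s => v s ω) ∂μ := by
  classical
  obtain ⟨hmeas, hind, hunif⟩ := hv
  obtain ⟨cyl, hcyl⟩ : ∃ cyl : (Fin t → Fin m) → Set Ω,
      cyl = fun w => ⋂ s : Fin t, v s ⁻¹' {pv m (w s)} := ⟨_, rfl⟩
  have hcm : ∀ w, MeasurableSet (cyl w) := by
    intro w
    rw [hcyl]
    exact MeasurableSet.iInter fun s => hmeas _ _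
  have hcard : ∀ w, μ (cyl w) = ((m : ℝ≥0∞)⁻¹) ^ t := by
    intro w
    have h1 := hind.measure_inter_preimage_eq_mul (Finset.range t)
      (sets := fun s => if h : s < t then {pv m (w ⟨s, h⟩)} else Set.univ)
      (fun _ _ => trivial)
    have e1 : (⋂ s ∈ Finset.range t, v s ⁻¹'
        (if h : s < t then {pv m (w ⟨s, h⟩)} else Set.univ)) = cyl w := by
      rw [hcyl]
      ext ω
      simp only [Set.mem_iInter, Set.mem_preimage, mem_range]
      constructor
      · intro h s
        have := h s s.2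
        rwa [dif_pos s.2] at this
      · intro h s hs
        rw [dif_pos hs]
        exact h ⟨s, hs⟩
    rw [e1] at h1
    rw [h1]
    have e2 : ∀ s ∈ Finset.range t, μ (v s ⁻¹'
        (if h : s < t then {pv m (w ⟨s, h⟩)} else Set.univ)) = (m : ℝ≥0∞)⁻¹ := by
      intro s hs
      rw [dif_pos (mem_range.1 hs), hunif s _ (mem_image_of_mem _ (mem_univ _)), card_inn]
    rw [prod_congr rfl e2]
    simp
  have hdisj : Set.PairwiseDisjoint (↑(bad p m η t)) cyl := by
    intro w _ w' _ hne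
    rw [Function.onFun, Set.disjoint_left]
    intro ω h1 h2
    apply hne
    rw [hcyl] at h1 h2
    simp only [Set.mem_iInter, Set.mem_preimage, Set.mem_singleton_iff] at h1 h2
    funext s
    exact pv_inj m ((h1 s).symm.trans (h2 s))
  obtain ⟨A, hA⟩ : ∃ A : Set Ω, A = ⋃ w ∈ bad p m η t, cyl w := ⟨_, rfl⟩
  have hAm : MeasurableSet A := by
    rw [hA]
    exact Finset.measurableSet_biUnion _ fun w _ => hcm w
  have hμA : μ A = ((bad p m η t).card : ℝ≥0∞) * ((m : ℝ≥0∞)⁻¹) ^ t := by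
    rw [hA, measure_biUnion_finset hdisj fun w _ => hcm w, sum_congr rfl fun w _ => hcard w]
    simp
  have hhalf : (1 : ℝ≥0∞) / 2 ≤ μ A := by
    rw [hμA]
    have h1 := card_bad P hm t ht
    have h2 : ((m : ℝ≥0∞)) ^ t ≤ 2 * ((bad p m η t).card : ℝ≥0∞) := by
      have : (m ^ t : ℕ) ≤ 2 * (bad p m η t).card := by exact_mod_cast h1
      exact_mod_cast this
    have hm0 : (m : ℝ≥0∞) ^ t ≠ 0 := by
      apply pow_ne_zero
      exact_mod_cast hm.ne'
    have hmtop : (m : ℝ≥0∞) ^ t ≠ ⊤ := by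
      apply ENNReal.pow_ne_top
      exact ENNReal.natCast_ne_top m
    rw [← ENNReal.inv_pow, ← div_eq_mul_inv, ENNReal.le_div_iff_mul_le (Or.inl hm0)
      (Or.inl hmtop), one_div, mul_comm, ← div_eq_mul_inv]
    apply ENNReal.div_le_of_le_mul
    rwa [mul_comm]
  have hle : ∀ ω, A.indicator (fun _ => (t : ℝ≥0∞)) ω ≤
      hitTime p (gr m) (fz m η) (hf m) (η / 4) (fun s => v s ω) := by
    intro ω
    by_cases hω : ω ∈ A
    · rw [Set.indicator_of_mem hω]
      rw [hA] at hω
      simp only [Set.mem_iUnion] at hω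
      obtain ⟨w, hw, hωw⟩ := hω
      rw [hcyl] at hωw
      simp only [Set.mem_iInter, Set.mem_preimage, Set.mem_singleton_iff] at hωw
      refine le_iInf₂ fun s hs => ?_
      have hst : t ≤ s := by
        by_contra hlt
        push Not at hlt
        have hg1 : Good m η (run p (gr m) (fz m η) (fun s => v s ω) s) := by
          have h0 := good_run_later P (f₀ := fz m η) (fun s => v s ω) t w hωw 0
            (good_fz P.pos.le) s (by omega)
          rwa [zero_add] at h0
        have hg2 : Good m (η / 4) (run p (gr m) (fz m η) (fun s => v s ω) s) := by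
          refine ⟨hg1.1, fun x => ⟨(hg1.2 x).1, ?_⟩⟩
          have := (abs_le.1 (hs x)).2
          linarith
        have hg3 := good_run_later P' (fun s => v s ω) t w hωw s hg2 (t - s) (by omega)
        have e : s + (t - s) = t := by omega
        rw [e, run_eq p m (fz m η) (fun s => v s ω) t w hωw] at hg3
        obtain ⟨i, hi⟩ := (mem_filter.1 hw).2
        have := (hg3.2 (pv m i)).2
        linarith
      exact_mod_cast hst
    · rw [Set.indicator_of_notMem hω]
      exact bot_le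
  calc (t : ℝ≥0∞) / 2 = t * (1 / 2) := by rw [div_eq_mul_inv, one_div]
    _ ≤ t * μ A := by gcongr
    _ = ∫⁻ ω, A.indicator (fun _ => (t : ℝ≥0∞)) ω ∂μ := by
        rw [lintegral_indicator_const hAm]
    _ ≤ _ := lintegral_mono hle

end Pool.Agent.V11233.LpR
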